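import Pool.Agent.Q275.RS3.Prep

/-!
# Fixed lines are of Hodge type
-/

set_option autoImplicit false

namespace Pool.Agent.Q275.RS3

open Finset NumberField Pool.Agent.H916K

/-- a number field embedded in `ℂ`: integers go to algebraic integers -/
noncomputable def intMap {K : Type} [Field K] [NumberField K] (τ : K →+* ℂ) : 𝓞 K →+* AI :=
  (τ.comp (algebraMap (𝓞 K) K)).codRestrict (integralClosure ℤ ℂ)
    (fun x => (x.isIntegral_coe).map τ.toIntAlgHom)

lemma intMap_coe {K : Type} [Field K] [NumberField K] (τ : K →+* ℂ) (x : 𝓞 K) :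
    ((intMap τ x : AI) : ℂ) = τ (x : K) := rfl

/-- the main formula -/
lemma sum_val {K : Type} [Field K] [NumberField K] (σ : K →+* ℂ) {m : ℕ} (hm : 2 ≤ m)
    {ζ : 𝓞 K} (hζ : IsPrimitiveRoot ζ m) {s : Multiset (ZMod m × 𝓞 K)}
    (h0 : ∀ z ∈ s, z.1 ≠ 0) (hc : ∀ z ∈ s, z.2 ≠ 0) (hfix : Pool.Agent.Q59.RL.Fixed m σ s)
    (t : (ZMod m)ˣ) : (s.map fun z => ((t : ZMod m) * z.1).val).sum = m * (Multiset.card s / 2) := by
  classical
  have hmz : NeZero m := ⟨by omega⟩
  obtain ⟨N, hN⟩ := hfix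
  obtain ⟨M, hM⟩ := exists_bound_all s hc
  obtain ⟨ℓ, hℓB, hℓ, hsplit⟩ := exists_split K (N + M + m + 3)
  have hF : Fact ℓ.Prime := ⟨hℓ⟩
  have hℓ3 : 3 ≤ ℓ := by omega
  obtain ⟨k, _, _, φ, Γ, _, v, hv1, hv2, hv3⟩ := exists_val hℓ
  have hv : Above φ v := ⟨hv1, hv2, hv3⟩
  obtain ⟨χ1, hχ1, hχφ⟩ := exists_teich (ℓ := ℓ) φ
  obtain ⟨ξ, hξ⟩ : ∃ ζ : AI, IsPrimitiveRoot ζ ℓ := by
    have h1 := Complex.isPrimitiveRoot_exp ℓ hℓ.ne_zero
    have h2 : IsIntegral ℤ (Complex.exp (2 * Real.pi * Complex.I / ((ℓ : ℕ) : ℂ))) :=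
      h1.isIntegral hℓ.pos
    exact ⟨⟨_, h2⟩, IsPrimitiveRoot.of_map_of_injective (f := algebraMap AI ℂ) h1
      Subtype.val_injective⟩
  have hinj : Function.Injective (algebraMap AI ℂ) := Subtype.val_injective
  -- the twisted embedding
  set u : (ZMod m)ˣ := -t⁻¹ with hu
  set uu : ℕ := (u : ZMod m).val with huu
  have hucop : uu.Coprime m := ZMod.val_coe_unit_coprime u
  obtain ⟨τ, hτ⟩ := exists_emb σ (by omega : 0 < m) hζ hucop
  -- the residue map
  set g : 𝓞 K →+* k := φ.comp (intMap τ) with hg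
  set ι : ZMod ℓ →+* k := ZMod.castHom (dvd_refl ℓ) k with hι
  have hrange : ∀ x, g x ∈ ι.range := by
    intro x
    obtain ⟨a, ha⟩ := Pool.Agent.Q210.RS.mem_range_of_frob ι (g x)
      (by rw [ZMod.card]; exact hsplit k g x)
    exact ⟨a, ha⟩
  have hbij : Function.Bijective ι.rangeRestrict :=
    ⟨fun a b hab => ι.injective (congrArg Subtype.val hab), ι.rangeRestrict_surjective⟩
  set e0 : ZMod ℓ ≃+* ι.range := RingEquiv.ofBijective ι.rangeRestrict hbij with he0
  set f : 𝓞 K →+* ZMod ℓ := e0.symm.toRingHom.comp (g.codRestrict ι.range hrange) with hf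
  have hfg : ∀ x, ι (f x) = g x := by
    intro x
    have h3 : e0 (e0.symm (g.codRestrict ι.range hrange x)) = g.codRestrict ι.range hrange x :=
      e0.apply_symm_apply _
    exact congrArg Subtype.val h3
  have hfsurj : Function.Surjective f := ZMod.ringHom_surjective f
  have hmℓ : (m : ZMod ℓ) ≠ 0 := by
    rw [Ne, ZMod.natCast_eq_zero_iff]
    intro h
    have := Nat.le_of_dvd (by omega) h
    omega
  have hmne : NeZero (m : ZMod ℓ) := ⟨hmℓ⟩
  have hfζ : IsPrimitiveRoot (f ζ) m := by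
    rw [← Polynomial.isRoot_cyclotomic_iff]
    have h1 : (Polynomial.cyclotomic m (𝓞 K)).IsRoot ζ := hζ.isRoot_cyclotomic (by omega)
    have h2 := h1.map (f := f)
    rwa [Polynomial.map_cyclotomic] at h2
  have hmdvd : m ∣ ℓ - 1 := by
    apply hfζ.dvd_of_pow_eq_one
    exact ZMod.pow_card_sub_one_eq_one (hfζ.ne_zero (by omega))
  obtain ⟨χs, hχs⟩ := Pool.Agent.Q169.RS.sym K m ζ hζ (by omega) σ (ZMod ℓ) f hfsurj
    (by rw [ZMod.card]; exact hmdvd)
  obtain ⟨e, he⟩ := hmdvd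
  have he0' : 0 < e := Nat.pos_of_ne_zero (by rintro rfl; rw [mul_zero] at he; omega)
  have hdiv : (ℓ - 1) / m = e := by rw [he]; exact Nat.mul_div_cancel_left _ (by omega)
  set tt : ℕ := (t : ZMod m).val with htt
  have htcop : tt.Coprime m := ZMod.val_coe_unit_coprime t
  set χ : MulChar (ZMod ℓ) AI := (χ1 ^ e) ^ tt with hχ
  have hord1 : orderOf (χ1 ^ e) = m := by
    rw [orderOf_pow_of_dvd he0'.ne' (by rw [hχ1, he]; exact dvd_mul_left e m), hχ1, he,
      Nat.mul_div_cancel _ he0']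
  have hordχ : orderOf χ = m := by
    rw [hχ, Nat.Coprime.orderOf_pow (by rw [hord1]; exact htcop.symm), hord1]
  set ψ := AddChar.zmodChar ℓ hξ.pow_eq_one with hψdef
  set χ' : MulChar (ZMod ℓ) ℂ := χ.ringHomComp (algebraMap AI ℂ) with hχ'
  set ψ' : AddChar (ZMod ℓ) ℂ := (algebraMap AI ℂ).toMonoidHom.compAddChar ψ with hψ'
  have hordχ' : orderOf χ' = m := by
    rw [← hordχ]
    exact orderOf_injective (MulChar.ringHomCompHom (algebraMap AI ℂ))
      (MulChar.injective_ringHomComp hinj) χ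
  have hψ1 : ψ' ≠ 1 := by
    intro h
    have h1 : ψ' 1 = 1 := by rw [h]; rfl
    have h2 : algebraMap AI ℂ (ψ 1) = 1 := h1
    rw [hψdef, AddChar.zmodChar_apply] at h2
    have : Fact (1 < ℓ) := ⟨hℓ.one_lt⟩
    rw [ZMod.val_one, pow_one] at h2
    exact hξ.ne_one hℓ.one_lt (hinj (by rw [h2, map_one]))
  -- the residue symbol is the power of the Teichmueller character
  have hkey : χs ^ uu * (χ1 ^ e).ringHomComp (algebraMap AI ℂ) = 1 := by
    ext y
    rw [MulChar.mul_apply, MulChar.pow_apply_coe, MulChar.one_apply_coe,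
      MulChar.ringHomComp_apply]
    obtain ⟨x, hx⟩ := hfsurj (y : ZMod ℓ)
    have hy0 : (y : ZMod ℓ) ≠ 0 := y.ne_zero
    have hfx : f x ≠ 0 := by rw [hx]; exact hy0
    obtain ⟨ζ', hζ'1, hζ'2, hζ'3⟩ := hχs.residue x hfx
    rw [ZMod.card, hdiv, hx] at hζ'2
    rw [hx] at hζ'3
    obtain ⟨j, hj, hj'⟩ := hζ.eq_pow_of_pow_eq_one hζ'1
    have h1 : intMap τ ζ' = (intMap σ ζ') ^ uu := by
      apply hinj
      have a1 : algebraMap AI ℂ (intMap τ ζ') = τ (ζ' : K) := rfl
      have a2 : algebraMap AI ℂ ((intMap σ ζ') ^ uu) = (σ (ζ' : K)) ^ uu := by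
        rw [map_pow]; rfl
      rw [a1, a2, ← hj']
      push_cast
      rw [map_pow, map_pow, hτ, ← pow_mul, ← pow_mul, mul_comm]
    set ρ : AI := (intMap σ ζ') ^ uu * (χ1 ^ e) (y : ZMod ℓ) with hρ
    have h2 : φ ρ = 1 := by
      rw [hρ, map_mul, ← h1]
      have b1 : φ (intMap τ ζ') = ι (f ζ') := (hfg ζ').symm
      rw [b1, hζ'2, map_pow, MulChar.pow_apply_coe, map_pow, ← mul_pow, mul_comm, hχφ _ hy0,
        one_pow]
    have h3 : ρ ^ (ℓ - 1) = 1 := by
      have b1 : ζ' ^ (m * e) = 1 := by rw [pow_mul, hζ'1, one_pow]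
      have b2 : ((intMap σ) ζ' ^ uu) ^ (ℓ - 1) = 1 := by
        rw [he, ← pow_mul, mul_comm, pow_mul, ← map_pow, b1, map_one, one_pow]
      have b3 : ((χ1 ^ e) (y : ZMod ℓ)) ^ (ℓ - 1) = 1 := by
        rw [← map_pow, ZMod.pow_card_sub_one_eq_one hy0, map_one]
      rw [hρ, mul_pow, b2, b3, one_mul]
    have h4 := root_inj φ (pred_ne_zero (ℓ := ℓ)) h3 h2
    have h5 := congrArg (algebraMap AI ℂ) h4
    rw [hρ, map_mul, map_pow, map_one] at h5
    rw [hζ'3]
    exact h5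
  have hχeq : χ' = χs := by
    have c1 : χ' = ((χ1 ^ e).ringHomComp (algebraMap AI ℂ)) ^ tt := by
      rw [hχ', hχ, MulChar.ringHomComp_pow]
    have c2 : χs ^ (uu * tt + 1) = 1 := by
      rw [← orderOf_dvd_iff_pow_eq_one, hχs.order, ← ZMod.natCast_eq_zero_iff]
      push_cast
      rw [huu, htt, ZMod.natCast_zmod_val, ZMod.natCast_zmod_val, hu, ← Units.val_mul,
        neg_mul, inv_mul_cancel, Units.val_neg, Units.val_one, neg_add_cancel]
    have c3 := congrArg (fun z => z ^ tt) hkey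
    simp only [mul_pow, one_pow] at c3
    rw [← pow_mul, ← c1] at c3
    rw [pow_succ] at c2
    calc χ' = χ' * (χs ^ (uu * tt) * χs) := by rw [c2, mul_one]
      _ = (χs ^ (uu * tt) * χ') * χs := by rw [← mul_assoc, mul_comm χ']
      _ = χs := by rw [c3, one_mul]
  have h1 := hN (ZMod ℓ) f hfsurj (by rw [ZMod.card]; omega) χs ψ' hχs hψ1
  rw [← hχeq] at h1
  have h2 := congrArg v h1
  rw [map_mul, map_pow, map_multiset_prod, map_multiset_prod, Multiset.map_map,
    Multiset.map_map] at h2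
  set π := v (((ξ - 1 : AI)) : ℂ) with hπ
  have hg : ∀ z ∈ s, v (gaussSum (χ' ^ z.1.val) ψ') = π ^ (e * ((t : ZMod m) * z.1).val) := by
    intro z hz
    have e1 : gaussSum (χ' ^ z.1.val) ψ' = ((gaussSum (χ ^ z.1.val) ψ : AI) : ℂ) := by
      have : gaussSum (χ' ^ z.1.val) ψ' = algebraMap AI ℂ (gaussSum (χ ^ z.1.val) ψ) := by
        unfold gaussSum
        rw [map_sum]
        refine sum_congr rfl fun x _ => ?_
        rw [map_mul, hχ', MulChar.ringHomComp_pow, MulChar.ringHomComp_apply]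
        rfl
      rw [this]; rfl
    have e2 : χ ^ z.1.val = χ1 ^ (e * ((t : ZMod m) * z.1).val) := by
      rw [hχ, ← pow_mul, ← pow_mul, pow_eq_pow_iff_modEq, hχ1, he, ZMod.val_mul, mul_comm m e]
      exact (Nat.ModEq.mul_left' e (Nat.mod_modEq _ _)).symm
    have e3 : (t : ZMod m) * z.1 ≠ 0 := by
      intro h
      exact h0 z hz ((t.isUnit.mul_right_eq_zero).mp h)
    have e4 : 0 < ((t : ZMod m) * z.1).val := Nat.pos_of_ne_zero
      (fun h => e3 ((ZMod.val_eq_zero _).mp h))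
    have e5 := ZMod.val_lt ((t : ZMod m) * z.1)
    have e6 : e * ((t : ZMod m) * z.1).val ≤ e * (m - 1) := Nat.mul_le_mul_left e (by omega)
    have e7 : e * (m - 1) = ℓ - 1 - e := by
      rw [he, Nat.mul_sub, mul_one, mul_comm]
    rw [e1, e2]
    exact v_gauss hv hξ hχ1 hχφ hℓ3 _ (Nat.mul_pos he0' e4) (by omega)
  have hcf : ∀ z ∈ s, v ((χ' ^ z.1.val) (f z.2)) = 1 := by
    intro z hz
    have e1 : (χ' ^ z.1.val) (f z.2) = (((χ ^ z.1.val) (f z.2) : AI) : ℂ) := by
      rw [hχ', MulChar.ringHomComp_pow, MulChar.ringHomComp_apply]; rfl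
    rw [e1]
    apply hv.root (n := orderOf (χ ^ z.1.val)) (orderOf_pos _).ne'
    apply mulChar_pow_one rfl
    exact hM z hz (ZMod ℓ) f hfsurj (by rw [ZMod.card]; omega)
  have e1 : (s.map (v ∘ fun z => gaussSum (χ' ^ z.1.val) ψ')) =
      s.map fun z => π ^ (e * ((t : ZMod m) * z.1).val) := Multiset.map_congr rfl hg
  have e2 : (s.map (v ∘ fun z => (χ' ^ z.1.val) (f z.2))) = s.map fun _ => (1 : Γ) :=
    Multiset.map_congr rfl hcf
  rw [e1, e2, Multiset.map_const', Multiset.prod_replicate, one_pow, mul_one, ZMod.card] at h2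
  have hprodpow : ∀ s : Multiset (ZMod m × 𝓞 K),
      (s.map fun z => π ^ (e * ((t : ZMod m) * z.1).val)).prod =
        π ^ (e * (s.map fun z => ((t : ZMod m) * z.1).val).sum) := by
    intro s
    induction s using Multiset.induction_on with
    | empty => simp
    | cons a s ih =>
      rw [Multiset.map_cons, Multiset.prod_cons, ih, Multiset.map_cons, Multiset.sum_cons,
        ← pow_add, mul_add]
  rw [hprodpow] at h2
  -- the valuation of `ℓ`
  have hπ0 : π ≠ 0 := by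
    rw [hπ, Valuation.ne_zero_iff]
    intro h0
    have h7 : (ξ : ℂ) = 1 := by
      have : ((ξ - 1 : AI) : ℂ) = (ξ : ℂ) - 1 := by push_cast; ring
      rw [this] at h0
      exact sub_eq_zero.mp h0
    exact hξ.ne_one hℓ.one_lt (Subtype.ext h7)
  have hπ1 : π < 1 := v_pi hv hξ
  have hvℓ : v ((ℓ : ℂ)) = π ^ (ℓ - 1) := by
    refine le_antisymm (v_ell hv hξ) ?_
    have hprim : (AddChar.zmodChar ℓ hξ.pow_eq_one).IsPrimitive :=
      AddChar.zmodChar_primitive_of_primitive_root ℓ hξ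
    have hne : χ1 ≠ 1 := by
      intro h; rw [h, orderOf_one] at hχ1; omega
    have h3 := gaussSum_mul_gaussSum_pow_orderOf_sub_one hne hprim
    rw [hχ1] at h3
    have h4 := congrArg (fun z : AI => v (z : ℂ)) h3
    push_cast at h4
    rw [map_mul, map_mul] at h4
    have hneg : v ((χ1 (-1) : AI) : ℂ) = 1 := by
      apply hv.root (n := 2) (by norm_num)
      rw [← map_pow]
      have : ((-1 : ZMod ℓ)) ^ 2 = 1 := by ring
      rw [this, MulChar.map_one]
    rw [hneg, one_mul, ZMod.card, v_gauss_one hv hξ hχ1 hχφ hℓ3, show ℓ - 1 - 1 = ℓ - 2 by omega,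
      v_gauss hv hξ hχ1 hχφ hℓ3 (ℓ - 2) (by omega) le_rfl, ← pow_succ',
      show ℓ - 2 + 1 = ℓ - 1 by omega] at h4
    exact h4.le
  rw [hvℓ, ← pow_mul] at h2
  have h3 := pow_right_injective₀ (zero_lt_iff.mpr hπ0) hπ1.ne h2
  rw [he] at h3
  have : e * (s.map fun z => ((t : ZMod m) * z.1).val).sum = e * (m * (Multiset.card s / 2)) := by
    rw [h3]; ring
  exact Nat.eq_of_mul_eq_mul_left he0' this

theorem hodge : Pool.Agent.H180.RS.PropHodge := by
  intro K _ _ σ m hm ζ hζ s hs hsum hfix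
  have hmz : NeZero m := ⟨by omega⟩
  have key := sum_val σ hm hζ (fun z hz => (hs z hz).1) (fun z hz => (hs z hz).2) hfix
  have hneg : ∀ z ∈ s, (((1 : (ZMod m)ˣ) : ZMod m) * z.1).val +
      (((-1 : (ZMod m)ˣ) : ZMod m) * z.1).val = m := by
    intro z hz
    have h1 : z.1 ≠ 0 := (hs z hz).1
    rw [Units.val_one, one_mul, Units.val_neg, Units.val_one, neg_one_mul, ZMod.neg_val,
      if_neg h1]
    have := ZMod.val_lt z.1
    omega
  have h1 : (s.map fun z => (((1 : (ZMod m)ˣ) : ZMod m) * z.1).val +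
      (((-1 : (ZMod m)ˣ) : ZMod m) * z.1).val).sum = m * Multiset.card s := by
    rw [Multiset.map_congr rfl hneg, Multiset.map_const', Multiset.sum_replicate, smul_eq_mul,
      mul_comm]
  rw [Multiset.sum_map_add, key 1, key (-1)] at h1
  have h2 : Multiset.card s / 2 + Multiset.card s / 2 = Multiset.card s := by
    apply Nat.eq_of_mul_eq_mul_left (by omega : 0 < m)
    rw [← h1]; ring
  refine ⟨?_, ?_, hsum, ?_⟩
  · intro h
    obtain ⟨z, hz, hz0⟩ := Multiset.mem_map.mp h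
    exact (hs z hz).1 hz0
  · rw [Multiset.card_map]
    exact ⟨_, h2.symm⟩
  · intro t
    rw [Multiset.map_map, Multiset.card_map]
    have h5 : (s.map ((fun a => ((t : ZMod m) * a).val) ∘ Prod.fst)).sum =
      m * (Multiset.card s / 2) := key t
    rw [h5]
    conv_rhs => rw [← h2]
    ring

end Pool.Agent.Q275.RS3
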