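import Pool.Agent.H180.RS.Stmts3
import Pool.Agent.H916K.Stick
import Pool.Agent.Q169.RS.Sym
import Pool.Agent.Q210.RS.ParA
import Pool.Agent.Q6.RS.Cheb0

/-!
# Completely split primes, embeddings and roots of unity
-/

set_option autoImplicit false

namespace Pool.Agent.Q275.RS3

open Finset NumberField Polynomial Pool.Agent.H916K

/-- completely split primes -/
lemma exists_split (K : Type) [Field K] [NumberField K] (B : ℕ) :
    ∃ ℓ : ℕ, B < ℓ ∧ ℓ.Prime ∧ ∀ (k : Type) [Field k] [CharP k ℓ] (f : 𝓞 K →+* k) (x : 𝓞 K),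
      f x ^ ℓ = f x := by
  classical
  obtain ⟨L, _, _, i, θ, hg, _⟩ := Pool.Agent.Q6.RS.exists_galois (0 : K)
  obtain ⟨ℓ, ⟨hℓ, hxp⟩, hB⟩ := (Pool.Agent.W401.Cheb.infinite_frob L 1).exists_gt B
  have : Fact ℓ.Prime := ⟨hℓ⟩
  have hne : Nonempty {φ : 𝓞 L →+* AlgebraicClosure (ZMod ℓ) //
      Pool.Agent.W401.Cheb.HasFrob ℓ φ 1} := by
    by_contra hem
    rw [not_nonempty_iff] at hem
    apply hxp
    unfold Pool.Agent.W401.Cheb.xp
    rw [dif_pos hℓ]
    exact Nat.card_of_isEmpty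
  obtain ⟨Φ, hΦ⟩ := hne
  have hΦ' : ∀ x, Φ x ^ ℓ = Φ x := by
    intro x
    have := hΦ x
    rw [one_smul] at this
    exact this.symm
  refine ⟨ℓ, hB, hℓ, ?_⟩
  intro k _ _ f x
  have hi : Function.Injective (RingOfIntegers.mapRingHom i) := by
    intro a b hab
    apply RingOfIntegers.ext
    apply i.injective
    exact congrArg (fun z : 𝓞 L => (z : L)) hab
  set y : 𝓞 L := RingOfIntegers.mapRingHom i x with hy
  obtain ⟨Q, hQ⟩ := (Polynomial.mem_lifts _).mp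
    (Algebra.IsInvariant.charpoly_mem_lifts ℤ (𝓞 L) Gal(L/ℚ) y)
  have hQy : Q.eval₂ (Int.castRingHom (𝓞 L)) y = 0 := by
    rw [← Polynomial.eval_map]
    have h1 : Q.map (Int.castRingHom (𝓞 L)) = MulSemiringAction.charpoly Gal(L/ℚ) y := by
      rw [← hQ]; rfl
    rw [h1]
    exact MulSemiringAction.eval_charpoly _ y
  have hQx : Q.eval₂ (Int.castRingHom (𝓞 K)) x = 0 := by
    apply hi
    rw [map_zero, Polynomial.hom_eval₂]
    rw [← hQy, hy]
    congr 1
    exact RingHom.ext_int _ _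
  have hQk : Q.eval₂ (Int.castRingHom k) (f x) = 0 := by
    have h1 := congrArg f hQx
    rw [map_zero, Polynomial.hom_eval₂] at h1
    rw [← h1]
    congr 1
    exact RingHom.ext_int _ _
  have hdvd : Q.map (Int.castRingHom (AlgebraicClosure (ZMod ℓ))) ∣
      (X ^ ℓ - X) ^ (Fintype.card Gal(L/ℚ)) := by
    have h1 : Q.map (Int.castRingHom (AlgebraicClosure (ZMod ℓ))) =
        (MulSemiringAction.charpoly Gal(L/ℚ) y).map Φ := by
      rw [← hQ, Polynomial.map_map]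
      congr 1
      exact RingHom.ext_int _ _
    rw [h1, MulSemiringAction.charpoly_eq, Polynomial.map_prod, ← Finset.card_univ,
      ← Finset.prod_const]
    apply Finset.prod_dvd_prod_of_dvd
    intro g _
    rw [Polynomial.map_sub, Polynomial.map_X, Polynomial.map_C, Polynomial.dvd_iff_isRoot,
      Polynomial.IsRoot.def]
    simp only [eval_sub, eval_pow, eval_X]
    rw [hΦ', sub_self]
  have hdvd2 : Q.map (Int.castRingHom (ZMod ℓ)) ∣ (X ^ ℓ - X) ^ (Fintype.card Gal(L/ℚ)) := by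
    rw [← Polynomial.map_dvd_map' (algebraMap (ZMod ℓ) (AlgebraicClosure (ZMod ℓ)))]
    have h1 : (Q.map (Int.castRingHom (ZMod ℓ))).map
        (algebraMap (ZMod ℓ) (AlgebraicClosure (ZMod ℓ))) =
        Q.map (Int.castRingHom (AlgebraicClosure (ZMod ℓ))) := by
      rw [Polynomial.map_map]
      congr 1
    rw [h1]
    simpa using hdvd
  have hdvd3 : Q.map (Int.castRingHom k) ∣ (X ^ ℓ - X) ^ (Fintype.card Gal(L/ℚ)) := by
    have h1 := Polynomial.map_dvd (ZMod.castHom (dvd_refl ℓ) k) hdvd2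
    rw [Polynomial.map_map] at h1
    have h2 : (ZMod.castHom (dvd_refl ℓ) k).comp (Int.castRingHom (ZMod ℓ)) =
      Int.castRingHom k := RingHom.ext_int _ _
    rw [h2] at h1
    simpa using h1
  obtain ⟨R, hR⟩ := hdvd3
  have h3 := congrArg (Polynomial.eval (f x)) hR
  rw [Polynomial.eval_mul, Polynomial.eval_map, hQk, zero_mul] at h3
  simp only [eval_pow, eval_sub, eval_X] at h3
  exact sub_eq_zero.mp (pow_eq_zero_iff (Fintype.card_ne_zero)|>.mp h3)

lemma root_inj {k : Type} [Field k] (φ : AI →+* k) {ρ : AI} {n : ℕ} (hn : (n : k) ≠ 0)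
    (h : ρ ^ n = 1) (h1 : φ ρ = 1) : ρ = 1 := by
  have hn0 : n ≠ 0 := by rintro rfl; simp at hn
  have hd : orderOf ρ ∣ n := orderOf_dvd_of_pow_eq_one h
  have hd0 : 0 < orderOf ρ := Nat.pos_of_dvd_of_pos hd (Nat.pos_of_ne_zero hn0)
  have hp : IsPrimitiveRoot ρ (orderOf ρ) := IsPrimitiveRoot.orderOf ρ
  have hdk : ((orderOf ρ : ℕ) : k) ≠ 0 := by
    intro h0
    obtain ⟨c, hc⟩ := hd
    apply hn
    rw [hc]; push_cast; rw [h0, zero_mul]
  have : NeZero ((orderOf ρ : ℕ) : k) := ⟨hdk⟩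
  have h2 : IsPrimitiveRoot (φ ρ) (orderOf ρ) := by
    rw [← Polynomial.isRoot_cyclotomic_iff]
    have h1 : (Polynomial.cyclotomic (orderOf ρ) AI).IsRoot ρ := hp.isRoot_cyclotomic hd0
    have h2 := h1.map (f := φ)
    rwa [Polynomial.map_cyclotomic] at h2
  rw [h1] at h2
  have h3 : orderOf ρ = 1 := h2.unique IsPrimitiveRoot.one
  exact orderOf_eq_one_iff.mp h3

lemma exists_emb {K : Type} [Field K] [NumberField K] (σ : K →+* ℂ) {m : ℕ} (hm : 0 < m)
    {ζ : 𝓞 K} (hζ : IsPrimitiveRoot ζ m) {u : ℕ} (hu : u.Coprime m) :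
    ∃ τ : K →+* ℂ, τ (ζ : K) = σ (ζ : K) ^ u := by
  have hζK : IsPrimitiveRoot (ζ : K) m :=
    hζ.map_of_injective (f := algebraMap (𝓞 K) K) (FaithfulSMul.algebraMap_injective (𝓞 K) K)
  have hσ : IsPrimitiveRoot (σ (ζ : K)) m := hζK.map_of_injective σ.injective
  have h0 : IsPrimitiveRoot (σ (ζ : K) ^ u) m := hσ.pow_of_coprime u hu
  have h1 := NumberField.Embeddings.range_eval_eq_rootSet_minpoly K ℂ (ζ : K)
  have h2 : σ (ζ : K) ^ u ∈ (minpoly ℚ (ζ : K)).rootSet ℂ := by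
    rw [← Polynomial.cyclotomic_eq_minpoly_rat hζK hm, Polynomial.mem_rootSet]
    refine ⟨Polynomial.cyclotomic_ne_zero m ℚ, ?_⟩
    rw [Polynomial.aeval_def, Polynomial.eval₂_eq_eval_map, Polynomial.map_cyclotomic]
    exact h0.isRoot_cyclotomic hm
  rw [← h1] at h2
  obtain ⟨τ, hτ⟩ := h2
  exact ⟨τ, hτ⟩

lemma exists_bound_all {K : Type} [Field K] [NumberField K] {m : ℕ} (s : Multiset (ZMod m × 𝓞 K))
    (hs : ∀ z ∈ s, z.2 ≠ 0) : ∃ N : ℕ, ∀ z ∈ s, ∀ (F : Type) [Field F] [Fintype F]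
    (φ : 𝓞 K →+* F), Function.Surjective φ → N < Fintype.card F → φ z.2 ≠ 0 := by
  induction s using Multiset.induction_on with
  | empty => exact ⟨0, fun z hz => absurd hz (Multiset.notMem_zero z)⟩
  | cons a s ih =>
    obtain ⟨N, hN⟩ := ih (fun z hz => hs z (Multiset.mem_cons_of_mem hz))
    obtain ⟨M, hM⟩ := Pool.Agent.Q59.RL.exists_bound (hs a (Multiset.mem_cons_self a s))
    refine ⟨max N M, fun z hz F _ _ φ hφ hF => ?_⟩
    rcases Multiset.mem_cons.mp hz with rfl | hz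
    · exact hM F φ hφ (lt_of_le_of_lt (le_max_right _ _) hF)
    · exact hN z hz F φ hφ (lt_of_le_of_lt (le_max_left _ _) hF)

end Pool.Agent.Q275.RS3
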